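import Pool.Agent.H114.TM.Final

/-!
# Monochromatic arithmetic progressions in the Thue–Morse sequence

For every `d ≥ 1` the longest monochromatic arithmetic progression of difference `d` in the
Thue–Morse sequence has at most `d + 5` terms, and `d + 5` is attained exactly for `d = 2 ^ k - 1`
with `k ≥ 2` even.

Proof. Let `d` be odd, `N = 2 ^ m < d = N + e < 2 N`, and let `n + j d`, `j < d + 5`, be
monochromatic. Writing `n + j d = N Q_j + R_j` and comparing the terms `j` and `j + N` one gets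
`t (Q_j) = t (Q_j + d)` for `j ≤ e + 4`. The gaps of `Q` form a balanced word in the letters `1, 2`,
and as `Q_j` and `Q_j + d` have different parity, the words `111, 12121, 1221221, 2221222,
21222122, 1211211211, 2121221212212122` cannot occur in it. All slopes `e / N` are excluded in this
way except for `e = 1` (treated by hand) and `d = 11, 13, 21, 23, 25` (finite check).
-/

set_option autoImplicit false

namespace Pool.Agent.Results.MP_aa4033_co.LinearBound

/-- The Thue–Morse sequence: the parity of the number of ones in the binary expansion. -/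
def tm (n : ℕ) : ℕ := (Nat.digits 2 n).sum % 2

/-- The `l` terms `t_n, t_{n+d}, …, t_{n+(l-1)d}` are equal. -/
def Mono (n d l : ℕ) : Prop := ∀ j < l, tm (n + j * d) = tm n

/-- `A_t(n, d)`: the number of terms of the longest monochromatic progression of difference `d`
starting at `n` (in `ℕ ∪ {∞}`). -/
noncomputable def lenAt (n d : ℕ) : ℕ∞ := ⨆ (l : ℕ) (_ : Mono n d l), (l : ℕ∞)

/-- `A_t(d) = sup_n A_t(n, d)` (in `ℕ ∪ {∞}`). -/
noncomputable def maxLen (d : ℕ) : ℕ∞ := ⨆ n : ℕ, lenAt n d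

lemma mono_iff (n d l : ℕ) : Mono n d l ↔ Pool.Agent.H114.TM.Mono n d l := by
  unfold Mono Pool.Agent.H114.TM.Mono
  exact forall₂_congr fun j _ => Pool.Agent.H114.TM.tm_eq_iff _ _

lemma maxLen_le {d D : ℕ} (h : ∀ n, ¬ Pool.Agent.H114.TM.Mono n d (D + 1)) :
    maxLen d ≤ (D : ℕ∞) := by
  refine iSup_le fun n => iSup₂_le fun l hl => ?_
  rw [mono_iff] at hl
  by_contra hcon
  rw [Nat.cast_le] at hcon
  exact h n (hl.le (by omega))

/-- **The conjectured linear bound for the Thue–Morse sequence.** -/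
theorem result (d : ℕ) (hd : 1 ≤ d) :
    maxLen d ≤ d + 5 ∧ (maxLen d = d + 5 ↔ ∃ k : ℕ, 2 ≤ k ∧ Even k ∧ d = 2 ^ k - 1) := by
  obtain ⟨h1, h2⟩ := Pool.Agent.H114.TM.upper d hd
  have e5 : ((d + 5 : ℕ) : ℕ∞) = (d : ℕ∞) + 5 := by push_cast; rfl
  have e4 : ((d + 4 : ℕ) : ℕ∞) < (d : ℕ∞) + 5 := by
    rw [← e5, Nat.cast_lt]; omega
  have hle : maxLen d ≤ (d : ℕ∞) + 5 := by
    rw [← e5]; exact maxLen_le h1
  refine ⟨hle, ?_, ?_⟩
  · intro h
    by_contra hcon
    have h3 : maxLen d ≤ ((d + 4 : ℕ) : ℕ∞) := maxLen_le (h2 hcon)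
    rw [h] at h3
    exact absurd (lt_of_le_of_lt h3 e4) (lt_irrefl _)
  · rintro ⟨k, hk, he, rfl⟩
    refine le_antisymm hle ?_
    have h3 := Pool.Agent.H114.TM.lower k hk he
    rw [← mono_iff] at h3
    have h4 : ((2 ^ k + 4 : ℕ) : ℕ∞) ≤ lenAt (2 ^ (2 * k + 2) - (2 ^ k - 1)) (2 ^ k - 1) :=
      le_iSup₂ (f := fun (l : ℕ) (_ : Mono (2 ^ (2 * k + 2) - (2 ^ k - 1)) (2 ^ k - 1) l) =>
        (l : ℕ∞)) (2 ^ k + 4) h3
    have h5 : 2 ^ k - 1 + 5 = 2 ^ k + 4 := by
      clear h1 h2 h3 h4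
      have : 0 < 2 ^ k := by positivity
      omega
    rw [← e5, h5]
    exact h4.trans (le_iSup (fun n => lenAt n (2 ^ k - 1)) _)

end Pool.Agent.Results.MP_aa4033_co.LinearBound
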